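import Pool.Agent.N774.PI.Main
import Pool.Agent.N814.PIOde

/-!
# The last radius with a trapped average (helper774; the argument is by helper814)
-/

set_option autoImplicit false

namespace Pool.Agent.N774.PIA

open Pool.Agent.N795.PI Pool.Agent.N795.PI.H814 Filter Topology MeasureTheory

theorem last_radius {f p : ℝ → ℝ} {m : ℝ} (hf : SmoothRad f)
    (hp : ∀ t : ℝ, 0 < t → DifferentiableAt ℝ p t)
    (h0 : Tendsto (fun t => t * f t ^ 2) (𝓝[>] 0) atTop) (hf1' : Tendsto f atTop (𝓝 1))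
    (hflux : Tendsto (fun t => -2 * t ^ 2 * f t ^ 3 * deriv f t) atTop (𝓝 m))
    (hpl : Tendsto (fun t => t ^ 3 * p t ^ 2) atTop (𝓝 0)) :
    ∃ t1 : ℝ, 0 < t1 ∧ 2 * ww f t1 ≤ t1 * f t1 ^ 2 * |p t1| ∧
      ∀ t, t1 < t → t * f t ^ 2 * |p t| < 2 * ww f t := by
  -- continuity
  have cr : ∀ t, 0 < t → ContinuousAt (r f) t := fun t ht => (hr hf ht).continuousAt
  have cw : ∀ t, 0 < t → ContinuousAt (w f) t := fun t ht => (hw hf ht).continuousAt
  have cp : ∀ t, 0 < t → ContinuousAt p t := fun t ht => (hp t ht).continuousAt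
  have cg : ∀ t, 0 < t → ContinuousAt (fun t => 2 * w f t - r f t * |p t|) t := fun t ht =>
    ((cw t ht).const_mul 2).sub ((cr t ht).mul (cp t ht).abs)
  -- limits at infinity
  have hinv : Tendsto (fun t : ℝ => t⁻¹) atTop (𝓝 0) := tendsto_inv_atTop_zero
  have hev : ∀ᶠ t : ℝ in atTop, 0 < t := eventually_gt_atTop 0
  have ltf : Tendsto (fun t => t * deriv f t) atTop (𝓝 0) := by
    have h1 := (hflux.mul hinv).mul (((hf1'.pow 3).const_mul (-2)).inv₀ (by norm_num))
    rw [mul_zero, zero_mul] at h1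
    refine h1.congr' ?_
    filter_upwards [hev] with t ht
    have hF := (hf t ht).1
    field_simp
  have lw : Tendsto (w f) atTop (𝓝 1) := by
    have h1 := ((ltf.const_mul 2).div hf1' one_ne_zero).const_add 1
    rw [mul_zero, zero_div, add_zero] at h1
    refine h1.congr fun t => ?_
    unfold w
    rw [Pi.div_apply]
    ring
  have ltp : Tendsto (fun t => t * |p t|) atTop (𝓝 0) := by
    have h1 := hpl.mul hinv
    rw [mul_zero] at h1
    have h2 := h1.sqrt
    rw [Real.sqrt_zero] at h2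
    refine h2.congr' ?_
    filter_upwards [hev] with t ht
    have h3 : t ^ 3 * p t ^ 2 * t⁻¹ = (t * |p t|) ^ 2 := by
      rw [mul_pow, sq_abs]
      field_simp
    rw [h3]
    exact Real.sqrt_sq (by positivity)
  have lrp : Tendsto (fun t => r f t * |p t|) atTop (𝓝 0) := by
    have h1 := ltp.mul (hf1'.pow 2)
    rw [zero_mul] at h1
    refine h1.congr fun t => ?_
    unfold r
    ring
  have lg : Tendsto (fun t => 2 * w f t - r f t * |p t|) atTop (𝓝 2) := by
    have h1 := (lw.const_mul 2).sub lrp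
    norm_num at h1
    exact h1
  -- the set
  set S : Set ℝ := {t | 0 < t ∧ 2 * w f t - r f t * |p t| ≤ 0} with hS
  have hbdd : BddAbove S := by
    have h1 := lg.eventually (lt_mem_nhds (show (0 : ℝ) < 2 by norm_num))
    obtain ⟨T, hT⟩ := eventually_atTop.1 h1
    refine ⟨T, fun t ht => ?_⟩
    by_contra hlt
    have h2 := hT t (not_le.1 hlt).le
    exact absurd ht.2 (not_le.2 h2)
  have hne : S.Nonempty := by
    by_contra hcon
    rw [Set.not_nonempty_iff_eq_empty] at hcon
    have hpos : ∀ t, 0 < t → 0 < w f t := by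
      intro t ht
      have h1 : t ∉ S := by rw [hcon]; exact Set.notMem_empty t
      have h2 : ¬ (2 * w f t - r f t * |p t| ≤ 0) := fun h => h1 ⟨ht, h⟩
      have h3 : 0 ≤ r f t * |p t| := by
        have hF := (hf t ht).1
        unfold r
        positivity
      linarith [not_le.1 h2]
    have hmono : MonotoneOn (r f) (Set.Ioi 0) := by
      refine monotoneOn_of_deriv_nonneg (convex_Ioi 0)
        (fun t ht => (cr t ht).continuousWithinAt) ?_ ?_
      · intro t ht
        rw [interior_Ioi] at ht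
        exact (hr hf ht).differentiableAt.differentiableWithinAt
      · intro t ht
        rw [interior_Ioi] at ht
        rw [(hr hf ht).deriv]
        have := hpos t ht
        positivity
    have h1 : ∀ᶠ t in 𝓝[>] (0 : ℝ), r f 1 + 1 ≤ r f t := h0.eventually_ge_atTop (r f 1 + 1)
    have h2 : ∀ᶠ t in 𝓝[>] (0 : ℝ), t ∈ Set.Ioo (0 : ℝ) 1 :=
      Ioo_mem_nhdsGT one_pos
    obtain ⟨t, h3, h4⟩ := (h1.and h2).exists
    have h5 := hmono (Set.mem_Ioi.2 h4.1) (Set.mem_Ioi.2 one_pos) h4.2.le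
    linarith
  obtain ⟨s0, hs0⟩ := hne
  set t1 := sSup S with ht1
  have ht1pos : 0 < t1 := hs0.1.trans_le (le_csSup hbdd hs0)
  have hafter : ∀ t, t1 < t → 0 < 2 * w f t - r f t * |p t| := by
    intro t ht
    by_contra hcon
    have h1 : t ∈ S := ⟨ht1pos.trans ht, not_lt.1 hcon⟩
    exact absurd (le_csSup hbdd h1) (not_le.2 ht)
  have hle : 2 * w f t1 - r f t1 * |p t1| ≤ 0 := by
    have hcl : t1 ∈ closure S := csSup_mem_closure ⟨s0, hs0⟩ hbdd
    obtain ⟨u, hu1, hu2⟩ := mem_closure_iff_seq_limit.1 hcl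
    have h1 := (cg t1 ht1pos).tendsto.comp hu2
    exact le_of_tendsto h1 (Eventually.of_forall fun n => (hu1 n).2)
  refine ⟨t1, ht1pos, ?_, fun t ht => ?_⟩
  · have h1 : 2 * w f t1 ≤ r f t1 * |p t1| := by linarith
    exact h1
  · have h1 : r f t * |p t| < 2 * w f t := by linarith [hafter t ht]
    exact h1

/-- the theorem -/
theorem main {f : ℝ → ℝ} {h : Fin 3 → Fin 3 → E3 → ℝ} {m : ℝ} (D : IsData f h m)
    (hinner : Tendsto (fun t => t * f t ^ 2) (𝓝[>] 0) atTop)
    (hfl : ∀ t : ℝ, 0 < t → 0 < ww f t → Fluct (rad f) h t) :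
    ∃ t1 : ℝ, 0 < t1 ∧ 2 * ww f t1 ≤ t1 * f t1 ^ 2 * |mean (trS (rad f) h) t1| ∧
      (∀ t, t1 < t → t * f t ^ 2 * |mean (trS (rad f) h) t| < 2 * ww f t) ∧
      t1 * f t1 ^ 2 / 2 ≤ m := by
  have hf := D.smoothRad
  have hh := D.smoothTen
  have hp : ∀ t : ℝ, 0 < t → DifferentiableAt ℝ (mean (trS (rad f) h)) t := fun t ht =>
    (mean_deriv (fun x hx => cd_trS hf hh hx) ht).differentiableAt
  obtain ⟨K, T, hK, hT, hb⟩ := D.bound
  have hcube : Tendsto (fun t => t ^ 3 * mean (trS (rad f) h) t ^ 2) atTop (𝓝 0) := by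
    refine tendsto_cube hK hT fun t ht => ?_
    have ht0 : 0 < t := by linarith
    rw [mean_eq]
    refine (abs_integral_le_integral_abs).trans ?_
    have h1 : ∫ w : S2, |trS (rad f) h (t • (w : E3))| ∂nu ≤ ∫ _w : S2, K / t ^ 2 ∂nu := by
      refine integral_mono_of_nonneg (Eventually.of_forall fun w => abs_nonneg _)
        (integrable_const _) (Eventually.of_forall fun w => ?_)
      have h2 := hb (t • (w : E3)) (by rw [tw_norm ht0 w]; exact ht)
      rw [tw_norm ht0 w] at h2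
      exact h2
    refine h1.trans (le_of_eq ?_)
    simp
  have hmass := D.mass' adm_pf
  obtain ⟨t1, ht1, htr, haft⟩ := last_radius hf hp hinner D.tendsto_one hmass hcube
  refine ⟨t1, ht1, htr, haft, ?_⟩
  refine odes_pf f (mean (trS (rad f) h)) m t1 hf ht1 hp ?_ D.tendsto_one hmass hcube htr haft
  intro t ht
  have ht0 : 0 < t := ht1.trans ht
  refine averaged D ht0 (hfl t ht0 ?_)
  have hF := (hf t ht0).1
  have h3 : 0 ≤ t * f t ^ 2 * |mean (trS (rad f) h) t| := by positivity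
  linarith [haft t ht]

end Pool.Agent.N774.PIA
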