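import Pool.Agent.N774.PI.Sph
import Pool.Agent.N531.PIRad
import Pool.Agent.N329.PIAlg
import Pool.Agent.N901.PIOdeS
import Pool.Agent.N281.PIAdm

/-!
# The averaged mass aspect (helper774)
-/

set_option autoImplicit false

namespace Pool.Agent.N774.PIA

open Pool.Agent.N795.PI Filter Topology MeasureTheory

/-- the component of `h` in the direction of the unit normal of the spheres (metric `φ⁴ δ`) -/
noncomputable def hnn (φ : E3 → ℝ) (h : Fin 3 → Fin 3 → E3 → ℝ) (x : E3) : ℝ :=
  lam h x / φ x ^ 4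

/-- On the sphere of radius `t` the variance of the trace of `h` is at most the mean square distance
of `h` from its average over all rotations. -/
def Fluct (φ : E3 → ℝ) (h : Fin 3 → Fin 3 → E3 → ℝ) (t : ℝ) : Prop :=
  mean (fun x => trG φ h x ^ 2) t - mean (trG φ h) t ^ 2 ≤
    mean (normSqG φ h) t - (mean (hnn φ h) t ^ 2 + mean (trS φ h) t ^ 2 / 2)

section aux

variable {f : ℝ → ℝ} {h : Fin 3 → Fin 3 → E3 → ℝ}

theorem co (i : Fin 3) (x : E3) : ContDiffAt ℝ 1 (fun y : E3 => y i) x :=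
  ((EuclideanSpace.proj i : E3 →L[ℝ] ℝ).contDiff).contDiffAt

theorem cd_rad (hf : SmoothRad f) {x : E3} (hx : x ≠ 0) : ContDiffAt ℝ 1 (rad f) x := by
  have h1 : ContDiffAt ℝ 1 (fun y : E3 => ‖y‖) x := contDiffAt_norm ℝ hx
  have h2 : ContDiffAt ℝ 1 f ‖x‖ := ((hf ‖x‖ (norm_pos_iff.2 hx)).2).of_le (by norm_num)
  exact h2.comp x h1

theorem rad_ne (hf : SmoothRad f) {x : E3} (hx : x ≠ 0) : rad f x ≠ 0 :=
  (hf ‖x‖ (norm_pos_iff.2 hx)).1.ne'

theorem cd_lam (hh : SmoothTen h) {x : E3} (hx : x ≠ 0) : ContDiffAt ℝ 1 (lam h) x := by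
  have h1 : ContDiffAt ℝ 1 (fun y : E3 => ∑ i, ∑ j, h i j y * y i * y j) x := by
    refine ContDiffAt.sum fun i _ => ContDiffAt.sum fun j _ => ?_
    exact ((hh.2 i j x hx).mul (co i x)).mul (co j x)
  have h2 : ContDiffAt ℝ 1 (fun y : E3 => ‖y‖ ^ 2) x := (contDiffAt_norm ℝ hx).pow 2
  exact h1.div h2 (by have := norm_pos_iff.2 hx; positivity)

theorem cd_trE (hh : SmoothTen h) {x : E3} (hx : x ≠ 0) : ContDiffAt ℝ 1 (trE h) x :=
  ContDiffAt.sum fun i _ => hh.2 i i x hx

theorem cd_trS (hf : SmoothRad f) (hh : SmoothTen h) {x : E3} (hx : x ≠ 0) :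
    ContDiffAt ℝ 1 (trS (rad f) h) x :=
  ((cd_trE hh hx).sub (cd_lam hh hx)).div ((cd_rad hf hx).pow 4) (pow_ne_zero 4 (rad_ne hf hx))

theorem cd_trG (hf : SmoothRad f) (hh : SmoothTen h) {x : E3} (hx : x ≠ 0) :
    ContDiffAt ℝ 1 (trG (rad f) h) x :=
  (cd_trE hh hx).div ((cd_rad hf hx).pow 4) (pow_ne_zero 4 (rad_ne hf hx))

theorem cd_hnn (hf : SmoothRad f) (hh : SmoothTen h) {x : E3} (hx : x ≠ 0) :
    ContDiffAt ℝ 1 (hnn (rad f) h) x :=
  (cd_lam hh hx).div ((cd_rad hf hx).pow 4) (pow_ne_zero 4 (rad_ne hf hx))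

theorem cd_normSq (hf : SmoothRad f) (hh : SmoothTen h) {x : E3} (hx : x ≠ 0) :
    ContDiffAt ℝ 1 (normSqG (rad f) h) x := by
  have h1 : ContDiffAt ℝ 1 (fun y : E3 => ∑ i, ∑ j, h i j y ^ 2) x :=
    ContDiffAt.sum fun i _ => ContDiffAt.sum fun j _ => (hh.2 i j x hx).pow 2
  exact h1.div ((cd_rad hf hx).pow 8) (pow_ne_zero 8 (rad_ne hf hx))

theorem cd_tanV (hh : SmoothTen h) (i : Fin 3) {x : E3} (hx : x ≠ 0) :
    ContDiffAt ℝ 1 (tanV h i) x := by
  have h1 : ContDiffAt ℝ 1 (fun y : E3 => ∑ j, h i j y * y j) x :=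
    ContDiffAt.sum fun j _ => (hh.2 i j x hx).mul (co j x)
  exact h1.sub ((cd_lam hh hx).mul (co i x))

theorem tanV_orth {x : E3} (hx : x ≠ 0) : ∑ i, tanV h i x * x i = 0 := by
  have hn : ‖x‖ ^ 2 = x 0 ^ 2 + x 1 ^ 2 + x 2 ^ 2 := by
    rw [EuclideanSpace.norm_sq_eq, Fin.sum_univ_three]
    simp [Real.norm_eq_abs, sq_abs]
  have hnp : ‖x‖ ^ 2 ≠ 0 := by
    have := norm_pos_iff.2 hx
    positivity
  have h1 : lam h x * ‖x‖ ^ 2 = ∑ i, ∑ j, h i j x * x i * x j := by
    rw [lam, div_mul_cancel₀ _ hnp]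
  rw [hn] at h1
  simp only [tanV, Fin.sum_univ_three] at h1 ⊢
  linear_combination -h1

theorem trG_eq (x : E3) : trG (rad f) h x = hnn (rad f) h x + trS (rad f) h x := by
  rw [trG, hnn, trS]
  ring

theorem pw_le (hf : SmoothRad f) {x : E3} (hx : x ≠ 0) :
    trG (rad f) h x ^ 2 - normSqG (rad f) h x ≤
      2 * hnn (rad f) h x * trS (rad f) h x + trS (rad f) h x ^ 2 / 2 := by
  have h1 := alg_pf (fun i j => h i j x) x hx
  have h6 : lam h x ^ 2 + (trE h x - lam h x) ^ 2 / 2 ≤ ∑ i, ∑ j, h i j x ^ 2 := by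
    simpa [lam, trE] using h1
  have hr := (hf ‖x‖ (norm_pos_iff.2 hx)).1
  have hr' : 0 < rad f x := hr
  have h7 : (lam h x ^ 2 + (trE h x - lam h x) ^ 2 / 2) / rad f x ^ 8
      ≤ (∑ i, ∑ j, h i j x ^ 2) / rad f x ^ 8 := by gcongr
  have h9 : (lam h x ^ 2 + (trE h x - lam h x) ^ 2 / 2) / rad f x ^ 8
      = hnn (rad f) h x ^ 2 + trS (rad f) h x ^ 2 / 2 := by
    rw [hnn, trS]
    field_simp
  rw [h9] at h7
  rw [trG_eq]
  have h10 : normSqG (rad f) h x = (∑ i, ∑ j, h i j x ^ 2) / rad f x ^ 8 := rfl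
  rw [h10]
  nlinarith

end aux

theorem wne (w : S2) : (w : E3) ≠ 0 := by
  intro h0
  have := mem_sphere_zero_iff_norm.1 w.2
  rw [h0, norm_zero] at this
  exact zero_ne_one this

theorem tw_ne {t : ℝ} (ht : 0 < t) (w : S2) : t • (w : E3) ≠ 0 := smul_ne_zero ht.ne' (wne w)

theorem tw_norm {t : ℝ} (ht : 0 < t) (w : S2) : ‖t • (w : E3)‖ = t := by
  rw [norm_smul, mem_sphere_zero_iff_norm.1 w.2, Real.norm_eq_abs, abs_of_pos ht, mul_one]

theorem contS {F : E3 → ℝ} (hF : ∀ x : E3, x ≠ 0 → ContinuousAt F x) {t : ℝ} (ht : 0 < t) :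
    Continuous fun w : S2 => F (t • (w : E3)) := by
  have hcs : Continuous fun w : S2 => t • (w : E3) := continuous_subtype_val.const_smul t
  rw [continuous_iff_continuousAt]
  intro w
  exact ContinuousAt.comp (g := F) (hF _ (tw_ne ht w)) hcs.continuousAt

theorem intS {F : S2 → ℝ} (hF : Continuous F) : Integrable F nu :=
  hF.integrable_of_hasCompactSupport (HasCompactSupport.of_compactSpace _)

/-- continuity off the origin -/
def CO (F : E3 → ℝ) : Prop := ∀ x : E3, x ≠ 0 → ContinuousAt F x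

theorem c2 {F : E3 → ℝ} (hF : CO F) : CO (fun y => F y ^ 2) := fun x hx => (hF x hx).pow 2

theorem cm (c : ℝ) {F : E3 → ℝ} (hF : CO F) : CO (fun y => c * F y) := fun x hx =>
  (hF x hx).const_mul c

theorem cd2 {F : E3 → ℝ} (hF : CO F) : CO (fun y => F y / 2) := fun x hx => (hF x hx).div_const 2

theorem cmul {F G : E3 → ℝ} (hF : CO F) (hG : CO G) : CO (fun y => F y * G y) := fun x hx =>
  (hF x hx).mul (hG x hx)

theorem ca {F G : E3 → ℝ} (hF : CO F) (hG : CO G) : CO (fun y => F y + G y) := fun x hx =>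
  (hF x hx).add (hG x hx)

theorem cc (c : ℝ) : CO (fun _ => c) := fun _ _ => continuousAt_const

theorem mean_add {F G : E3 → ℝ} (hF : ∀ x : E3, x ≠ 0 → ContinuousAt F x)
    (hG : ∀ x : E3, x ≠ 0 → ContinuousAt G x) {t : ℝ} (ht : 0 < t) :
    mean (fun x => F x + G x) t = mean F t + mean G t := by
  rw [mean_eq, mean_eq, mean_eq]
  exact integral_add (intS (contS hF ht)) (intS (contS hG ht))

theorem mean_smul (c : ℝ) (F : E3 → ℝ) (t : ℝ) : mean (fun x => c * F x) t = c * mean F t := by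
  rw [mean_eq, mean_eq]
  exact integral_const_mul c _

theorem mean_const (c : ℝ) (t : ℝ) : mean (fun _ => c) t = c := by
  rw [mean_eq]
  simp

theorem mean_mono {F G : E3 → ℝ} (hF : ∀ x : E3, x ≠ 0 → ContinuousAt F x)
    (hG : ∀ x : E3, x ≠ 0 → ContinuousAt G x) {t : ℝ} (ht : 0 < t)
    (h : ∀ x : E3, ‖x‖ = t → F x ≤ G x) : mean F t ≤ mean G t := by
  rw [mean_eq, mean_eq]
  exact integral_mono (intS (contS hF ht)) (intS (contS hG ht)) fun w => h _ (tw_norm ht w)

theorem mean_congr {F G : E3 → ℝ} {t : ℝ} (ht : 0 < t) (h : ∀ x : E3, ‖x‖ = t → F x = G x) :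
    mean F t = mean G t := by
  rw [mean_eq, mean_eq]
  exact integral_congr_ae (Eventually.of_forall fun w => h _ (tw_norm ht w))

/-- the mean of the square is at least the square of the mean -/
theorem mean_sq {F : E3 → ℝ} (hF : ∀ x : E3, x ≠ 0 → ContinuousAt F x) {t : ℝ} (ht : 0 < t) :
    mean F t ^ 2 ≤ mean (fun x => F x ^ 2) t := by
  have h1 : 0 ≤ mean (fun x => (F x - mean F t) ^ 2) t := by
    rw [mean_eq]
    exact integral_nonneg fun w => sq_nonneg _
  have h2 : mean (fun x => (F x - mean F t) ^ 2) t =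
      mean (fun x => F x ^ 2) t + ((-2 * mean F t) * mean F t + mean F t ^ 2) := by
    have h3 : mean (fun x => (F x - mean F t) ^ 2) t =
        mean (fun x => F x ^ 2 + ((-2 * mean F t) * F x + mean F t ^ 2)) t :=
      mean_congr ht fun x _ => by ring
    rw [h3, mean_add (c2 hF) (ca (cm (-2 * mean F t) hF) (cc (mean F t ^ 2))) ht,
      mean_add (cm (-2 * mean F t) hF) (cc (mean F t ^ 2)) ht, mean_smul, mean_const]
  rw [h2] at h1
  nlinarith

/-- If the trace over the sphere is constant on the sphere, or if its sum with a multiple of the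
normal component is constant, the fluctuation condition holds. -/
theorem fluct_of {f : ℝ → ℝ} {h : Fin 3 → Fin 3 → E3 → ℝ} (hf : SmoothRad f) (hh : SmoothTen h)
    {t : ℝ} (ht : 0 < t)
    (hc : (∃ κ c : ℝ, 1 / 4 ≤ κ ∧ ∀ x : E3, ‖x‖ = t → hnn (rad f) h x + κ * trS (rad f) h x = c) ∨
      ∃ c : ℝ, ∀ x : E3, ‖x‖ = t → trS (rad f) h x = c) : Fluct (rad f) h t := by
  have cP : CO (trS (rad f) h) := fun x hx =>
    (cd_trS hf hh hx).continuousAt
  have cQ : CO (hnn (rad f) h) := fun x hx =>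
    (cd_hnn hf hh hx).continuousAt
  have cT : CO (trG (rad f) h) := fun x hx =>
    (cd_trG hf hh hx).continuousAt
  have cN : CO (normSqG (rad f) h) := fun x hx =>
    (cd_normSq hf hh hx).continuousAt
  have hT : mean (trG (rad f) h) t = mean (hnn (rad f) h) t + mean (trS (rad f) h) t := by
    rw [← mean_add cQ cP ht]
    exact mean_congr ht fun x _ => trG_eq x
  have hxne : ∀ x : E3, ‖x‖ = t → x ≠ 0 := by
    intro x hx h0
    rw [h0, norm_zero] at hx
    exact ht.ne hx
  -- the mean of the difference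
  have h1 : mean (fun x => trG (rad f) h x ^ 2) t - mean (normSqG (rad f) h) t ≤
      mean (fun x => 2 * hnn (rad f) h x * trS (rad f) h x + trS (rad f) h x ^ 2 / 2) t := by
    have h2 : mean (fun x => trG (rad f) h x ^ 2 + (-1) * normSqG (rad f) h x) t =
        mean (fun x => trG (rad f) h x ^ 2) t + (-1) * mean (normSqG (rad f) h) t := by
      rw [mean_add (c2 cT) (cm (-1) cN) ht, mean_smul]
    have h3 : mean (fun x => trG (rad f) h x ^ 2 + (-1) * normSqG (rad f) h x) t ≤
        mean (fun x => 2 * hnn (rad f) h x * trS (rad f) h x + trS (rad f) h x ^ 2 / 2) t := by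
      refine mean_mono (ca (c2 cT) (cm (-1) cN)) (ca (cmul (cm 2 cQ) cP) (cd2 (c2 cP))) ht ?_
      intro x hx
      have := pw_le (h := h) hf (hxne x hx)
      linarith
    linarith
  have h4 : mean (fun x => 2 * hnn (rad f) h x * trS (rad f) h x + trS (rad f) h x ^ 2 / 2) t ≤
      2 * mean (hnn (rad f) h) t * mean (trS (rad f) h) t + mean (trS (rad f) h) t ^ 2 / 2 := by
    rcases hc with ⟨κ, c, hκ, hc⟩ | ⟨c, hc⟩
    · have e1 : mean (fun x => 2 * hnn (rad f) h x * trS (rad f) h x + trS (rad f) h x ^ 2 / 2) t =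
          mean (fun x => (2 * c) * trS (rad f) h x + (1 / 2 - 2 * κ) * trS (rad f) h x ^ 2) t := by
        refine mean_congr ht fun x hx => ?_
        have := hc x hx
        have e : hnn (rad f) h x = c - κ * trS (rad f) h x := by linarith
        rw [e]
        ring
      have e2 : mean (hnn (rad f) h) t = c - κ * mean (trS (rad f) h) t := by
        have e3 : mean (fun x => hnn (rad f) h x + κ * trS (rad f) h x) t = c := by
          rw [mean_congr ht (G := fun _ => c) hc, mean_const]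
        rw [mean_add cQ (cm κ cP) ht, mean_smul] at e3
        linarith
      rw [e1, mean_add (cm (2 * c) cP) (cm (1 / 2 - 2 * κ) (c2 cP)) ht, mean_smul, mean_smul, e2]
      have e4 := mean_sq cP ht
      nlinarith
    · have e1 : mean (fun x => 2 * hnn (rad f) h x * trS (rad f) h x + trS (rad f) h x ^ 2 / 2) t =
          mean (fun x => (2 * c) * hnn (rad f) h x + c ^ 2 / 2) t := by
        refine mean_congr ht fun x hx => ?_
        rw [hc x hx]
        ring
      have e2 : mean (trS (rad f) h) t = c := by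
        rw [mean_congr ht (G := fun _ => c) hc, mean_const]
      rw [e1, mean_add (cm (2 * c) cQ) (cc (c ^ 2 / 2)) ht, mean_smul, mean_const, e2]
      linarith
  unfold Fluct
  rw [hT]
  nlinarith

/-- the averaged mass aspect equation -/
theorem averaged {f : ℝ → ℝ} {h : Fin 3 → Fin 3 → E3 → ℝ} {m : ℝ} (D : IsData f h m) {t : ℝ}
    (ht : 0 < t) (hF : Fluct (rad f) h t) :
    ∃ q μ Jn : ℝ, |Jn| ≤ μ ∧
      2 * μ ≤ -8 * (deriv (deriv f) t + 2 * deriv f t / t) / f t ^ 5
        + 2 * q * mean (trS (rad f) h) t + mean (trS (rad f) h) t ^ 2 / 2 ∧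
      0 ≤ mean (trS (rad f) h) t * (deriv (mean (trS (rad f) h)) t
        - ((2 * q - mean (trS (rad f) h) t) * (1 / t + 2 * deriv f t / f t) - f t ^ 2 * Jn)) := by
  have hf := D.smoothRad
  have hh := D.smoothTen
  have hfp : 0 < f t := (hf t ht).1
  have cP : CO (trS (rad f) h) := fun x hx =>
    (cd_trS hf hh hx).continuousAt
  have cQ : CO (hnn (rad f) h) := fun x hx =>
    (cd_hnn hf hh hx).continuousAt
  have cT : CO (trG (rad f) h) := fun x hx =>
    (cd_trG hf hh hx).continuousAt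
  have cN : CO (normSqG (rad f) h) := fun x hx =>
    (cd_normSq hf hh hx).continuousAt
  have hT : mean (trG (rad f) h) t = mean (hnn (rad f) h) t + mean (trS (rad f) h) t := by
    rw [← mean_add cQ cP ht]
    exact mean_congr ht fun x _ => trG_eq x
  have hscal : ∀ x : E3, ‖x‖ = t → scal (rad f) x =
      -8 * (deriv (deriv f) t + 2 * deriv f t / t) / f t ^ 5 := by
    intro x hx
    have hx0 : x ≠ 0 := by
      intro h0
      rw [h0, norm_zero] at hx
      exact ht.ne hx
    rw [scal, (rad_pf f hf x hx0).2, rad, hx]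
  set sc : ℝ := -8 * (deriv (deriv f) t + 2 * deriv f t / t) / f t ^ 5 with hsc
  have hmu : mean (mu (rad f) h) t = (sc - mean (normSqG (rad f) h) t
      + mean (fun x => trG (rad f) h x ^ 2) t) / 2 := by
    have e1 : mean (mu (rad f) h) t = mean (fun x => (1 / 2) * (sc + ((-1) * normSqG (rad f) h x
        + trG (rad f) h x ^ 2))) t := by
      refine mean_congr ht fun x hx => ?_
      rw [mu, hscal x hx]
      ring
    rw [e1, mean_smul, mean_add (cc sc) (ca (cm (-1) cN) (c2 cT)) ht,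
      mean_add (cm (-1) cN) (c2 cT) ht, mean_smul, mean_const]
    ring
  have hmucont : Continuous fun w : S2 => mu (rad f) h (t • (w : E3)) := by
    have e1 : (fun w : S2 => mu (rad f) h (t • (w : E3))) = fun w : S2 =>
        (sc - normSqG (rad f) h (t • (w : E3)) + trG (rad f) h (t • (w : E3)) ^ 2) / 2 := by
      funext w
      rw [mu, hscal _ (tw_norm ht w)]
    rw [e1]
    exact ((continuous_const.sub (contS cN ht)).add ((contS cT ht).pow 2)).div_const 2
  -- the momentum density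
  have hJ : ∀ w : S2, ∑ j, J (rad f) h j (t • (w : E3)) * (t • (w : E3)) j
      = (-t) * fderiv ℝ (trS (rad f) h) (t • (w : E3)) (w : E3)
          + (2 * ww f t) * hnn (rad f) h (t • (w : E3)) + (-ww f t) * trS (rad f) h (t • (w : E3))
          + (1 / f t ^ 4) * ∑ i, pd i (tanV h i) (t • (w : E3)) := by
    intro w
    have e1 := (jnu_pf f h hf hh (t • (w : E3)) (tw_ne ht w)).2
    rw [tw_norm ht w] at e1
    have e2 : hnn (rad f) h (t • (w : E3)) = lam h (t • (w : E3)) / f t ^ 4 := by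
      rw [hnn, rad, tw_norm ht w]
    have e3 : fderiv ℝ (trS (rad f) h) (t • (w : E3)) (t • (w : E3)) =
        t * fderiv ℝ (trS (rad f) h) (t • (w : E3)) (w : E3) := by
      rw [map_smul, smul_eq_mul]
    rw [e1, e2, e3, divV, ww]
    ring
  have hder := mean_deriv (fun x hx => cd_trS hf hh hx) ht (F := trS (rad f) h)
  have hdiv := mean_div (V := tanV h) (fun i x hx => cd_tanV hh i hx) (fun x hx => tanV_orth hx) ht
  -- continuity of the pieces
  have k1 : Continuous fun w : S2 => fderiv ℝ (trS (rad f) h) (t • (w : E3)) (w : E3) := by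
    have hcs : Continuous fun w : S2 => t • (w : E3) := continuous_subtype_val.const_smul t
    refine Continuous.clm_apply ?_ continuous_subtype_val
    rw [continuous_iff_continuousAt]
    intro w
    exact ContinuousAt.comp (g := fderiv ℝ (trS (rad f) h))
      (((cd_trS hf hh (tw_ne ht w)).fderiv_right (m := 0) (by norm_num)).continuousAt) hcs.continuousAt
  have k4 : Continuous fun w : S2 => ∑ i, pd i (tanV h i) (t • (w : E3)) := by
    have hcs : Continuous fun w : S2 => t • (w : E3) := continuous_subtype_val.const_smul t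
    refine continuous_finsetSum _ fun i _ => ?_
    unfold pd
    refine Continuous.clm_apply ?_ continuous_const
    rw [continuous_iff_continuousAt]
    intro w
    exact ContinuousAt.comp (g := fderiv ℝ (tanV h i))
      (((cd_tanV hh i (tw_ne ht w)).fderiv_right (m := 0) (by norm_num)).continuousAt) hcs.continuousAt
  have hJint : ∫ w : S2, (∑ j, J (rad f) h j (t • (w : E3)) * (t • (w : E3)) j) ∂nu =
      (-t) * deriv (mean (trS (rad f) h)) t + (2 * ww f t) * mean (hnn (rad f) h) t
        + (-ww f t) * mean (trS (rad f) h) t := by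
    simp only [hJ]
    rw [integral_add, integral_add, integral_add, integral_const_mul, integral_const_mul,
      integral_const_mul, integral_const_mul, hdiv, hder.deriv, mul_zero, add_zero]
    · rfl
    · exact (intS k1).const_mul _
    · exact (intS (contS cQ ht)).const_mul _
    · exact ((intS k1).const_mul _).add ((intS (contS cQ ht)).const_mul _)
    · exact (intS (contS cP ht)).const_mul _
    · exact (((intS k1).const_mul _).add ((intS (contS cQ ht)).const_mul _)).add
        ((intS (contS cP ht)).const_mul _)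
    · exact (intS k4).const_mul _
  set Jn : ℝ := (∫ w : S2, (∑ j, J (rad f) h j (t • (w : E3)) * (t • (w : E3)) j) ∂nu) / (t * f t ^ 2)
    with hJn
  refine ⟨mean (hnn (rad f) h) t, mean (mu (rad f) h) t, Jn, ?_, ?_, ?_⟩
  · rw [hJn, abs_div, abs_of_pos (by positivity : 0 < t * f t ^ 2), div_le_iff₀ (by positivity)]
    refine (abs_integral_le_integral_abs).trans ?_
    rw [mean_eq, ← integral_mul_const]
    refine integral_mono_of_nonneg (Eventually.of_forall fun w => abs_nonneg _)
      ((intS hmucont).mul_const _) (Eventually.of_forall fun w => ?_)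
    have hd := D.dec (t • (w : E3)) (tw_ne ht w)
    have hrad : rad f (t • (w : E3)) = f t := by rw [rad, tw_norm ht w]
    rw [normJ, hrad, div_le_iff₀ (by positivity)] at hd
    have h1 := cs (fun j => J (rad f) h j (t • (w : E3))) (t • (w : E3))
    rw [tw_norm ht w] at h1
    have h2 := mul_le_mul_of_nonneg_right hd ht.le
    simp only
    calc |∑ j, J (rad f) h j (t • (w : E3)) * (t • (w : E3)) j|
        ≤ Real.sqrt (∑ j, J (rad f) h j (t • (w : E3)) ^ 2) * t := h1
      _ ≤ mu (rad f) h (t • (w : E3)) * f t ^ 2 * t := h2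
      _ = mu (rad f) h (t • (w : E3)) * (t * f t ^ 2) := by ring
  · rw [hmu]
    unfold Fluct at hF
    rw [hT] at hF
    nlinarith
  · have e1 : f t ^ 2 * Jn = (∫ w : S2, (∑ j, J (rad f) h j (t • (w : E3)) * (t • (w : E3)) j) ∂nu) / t := by
      rw [hJn]
      field_simp
    rw [e1, hJint, ww]
    have e2 : deriv (mean (trS (rad f) h)) t - ((2 * mean (hnn (rad f) h) t
        - mean (trS (rad f) h) t) * (1 / t + 2 * deriv f t / f t)
        - ((-t) * deriv (mean (trS (rad f) h)) t
          + (2 * (1 + 2 * t * deriv f t / f t)) * mean (hnn (rad f) h) t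
          + (-(1 + 2 * t * deriv f t / f t)) * mean (trS (rad f) h) t) / t) = 0 := by
      field_simp
      ring
    rw [e2, mul_zero]

end Pool.Agent.N774.PIA
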