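import Pool.Agent.N774.PI.Fin
import Mathlib.Analysis.Normed.Module.Connected

/-!
# Untrapped spheres of negative scalar curvature (helper774)
-/

set_option autoImplicit false

namespace Pool.Agent.N774.PIA

open Pool.Agent.N795.PI Filter Topology MeasureTheory

/-- The sphere of radius `t` has negative scalar curvature and is not trapped at any point. -/
def NegUntrapped (f : ℝ → ℝ) (h : Fin 3 → Fin 3 → E3 → ℝ) (t : ℝ) : Prop :=
  (∀ x : E3, ‖x‖ = t → scal (rad f) x < 0) ∧
    ∀ x : E3, ‖x‖ = t → t * f t ^ 2 * |trS (rad f) h x| ≤ 2 * ww f t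

theorem const_sign {F : E3 → ℝ} (hF : CO F) {t : ℝ} (ht : 0 < t)
    (hne : ∀ x : E3, ‖x‖ = t → F x ≠ 0) :
    (∀ w : S2, 0 < F (t • (w : E3))) ∨ ∀ w : S2, F (t • (w : E3)) < 0 := by
  by_contra hcon
  push Not at hcon
  obtain ⟨⟨w1, h1⟩, w2, h2⟩ := hcon
  have hr : 1 < Module.rank ℝ E3 := by
    rw [← Module.finrank_eq_rank, finrank_euclideanSpace_fin]
    norm_num
  have hpre : IsPreconnected (Metric.sphere (0 : E3) 1) := isPreconnected_sphere hr 0 1
  have : PreconnectedSpace S2 := isPreconnected_iff_preconnectedSpace.1 hpre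
  have h3 := mem_range_of_exists_le_of_exists_ge (contS hF ht) ⟨w1, h1⟩ ⟨w2, h2⟩
  obtain ⟨w, hw⟩ := h3
  exact hne _ (tw_norm ht w) hw

/-- the averaged mass aspect equation on an untrapped sphere of negative scalar curvature -/
theorem averaged_neg {f : ℝ → ℝ} {h : Fin 3 → Fin 3 → E3 → ℝ} {m : ℝ} (D : IsData f h m) {t : ℝ}
    (ht : 0 < t) (hW : 0 < ww f t) (hF : NegUntrapped f h t) :
    ∃ q μ Jn : ℝ, |Jn| ≤ μ ∧
      2 * μ ≤ -8 * (deriv (deriv f) t + 2 * deriv f t / t) / f t ^ 5
        + 2 * q * mean (trS (rad f) h) t + mean (trS (rad f) h) t ^ 2 / 2 ∧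
      0 ≤ mean (trS (rad f) h) t * (deriv (mean (trS (rad f) h)) t
        - ((2 * q - mean (trS (rad f) h) t) * (1 / t + 2 * deriv f t / f t) - f t ^ 2 * Jn)) := by
  have hf := D.smoothRad
  have hh := D.smoothTen
  have hfp : 0 < f t := (hf t ht).1
  have cP : CO (trS (rad f) h) := fun x hx => (cd_trS hf hh hx).continuousAt
  have cQ : CO (hnn (rad f) h) := fun x hx => (cd_hnn hf hh hx).continuousAt
  have hxne : ∀ x : E3, ‖x‖ = t → x ≠ 0 := by
    intro x hx h0
    rw [h0, norm_zero] at hx
    exact ht.ne hx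
  have hscal : ∀ x : E3, ‖x‖ = t → scal (rad f) x =
      -8 * (deriv (deriv f) t + 2 * deriv f t / t) / f t ^ 5 := by
    intro x hx
    rw [scal, (rad_pf f hf x (hxne x hx)).2, rad, hx]
  set sc : ℝ := -8 * (deriv (deriv f) t + 2 * deriv f t / t) / f t ^ 5 with hsc
  obtain ⟨hneg, hunt⟩ := hF
  have hsc0 : sc < 0 := by
    have h1 := hneg (t • (EuclideanSpace.single 0 1 : E3)) (by
      rw [norm_smul, Real.norm_eq_abs, abs_of_pos ht]; simp)
    rwa [hscal _ (by rw [norm_smul, Real.norm_eq_abs, abs_of_pos ht]; simp)] at h1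
  -- the momentum density
  have hJ : ∀ w : S2, ∑ j, J (rad f) h j (t • (w : E3)) * (t • (w : E3)) j
      = (-t) * fderiv ℝ (trS (rad f) h) (t • (w : E3)) (w : E3)
          + (2 * ww f t) * hnn (rad f) h (t • (w : E3)) + (-ww f t) * trS (rad f) h (t • (w : E3))
          + (1 / f t ^ 4) * ∑ i, pd i (tanV h i) (t • (w : E3)) := by
    intro w
    have e1 := (jnu_pf f h hf hh (t • (w : E3)) (tw_ne ht w)).2
    rw [tw_norm ht w] at e1
    have e2 : hnn (rad f) h (t • (w : E3)) = lam h (t • (w : E3)) / f t ^ 4 := by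
      rw [hnn, rad, tw_norm ht w]
    have e3 : fderiv ℝ (trS (rad f) h) (t • (w : E3)) (t • (w : E3)) =
        t * fderiv ℝ (trS (rad f) h) (t • (w : E3)) (w : E3) := by
      rw [map_smul, smul_eq_mul]
    rw [e1, e2, e3, divV, ww]
    ring
  have hder := mean_deriv (fun x hx => cd_trS hf hh hx) ht (F := trS (rad f) h)
  have hdiv := mean_div (V := tanV h) (fun i x hx => cd_tanV hh i hx) (fun x hx => tanV_orth hx) ht
  have k1 : Continuous fun w : S2 => fderiv ℝ (trS (rad f) h) (t • (w : E3)) (w : E3) := by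
    have hcs : Continuous fun w : S2 => t • (w : E3) := continuous_subtype_val.const_smul t
    refine Continuous.clm_apply ?_ continuous_subtype_val
    rw [continuous_iff_continuousAt]
    intro w
    exact ContinuousAt.comp (g := fderiv ℝ (trS (rad f) h))
      (((cd_trS hf hh (tw_ne ht w)).fderiv_right (m := 0) (by norm_num)).continuousAt) hcs.continuousAt
  have k4 : Continuous fun w : S2 => ∑ i, pd i (tanV h i) (t • (w : E3)) := by
    have hcs : Continuous fun w : S2 => t • (w : E3) := continuous_subtype_val.const_smul t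
    refine continuous_finsetSum _ fun i _ => ?_
    unfold pd
    refine Continuous.clm_apply ?_ continuous_const
    rw [continuous_iff_continuousAt]
    intro w
    exact ContinuousAt.comp (g := fderiv ℝ (tanV h i))
      (((cd_tanV hh i (tw_ne ht w)).fderiv_right (m := 0) (by norm_num)).continuousAt) hcs.continuousAt
  have hJint : ∫ w : S2, (∑ j, J (rad f) h j (t • (w : E3)) * (t • (w : E3)) j) ∂nu =
      (-t) * deriv (mean (trS (rad f) h)) t + (2 * ww f t) * mean (hnn (rad f) h) t
        + (-ww f t) * mean (trS (rad f) h) t := by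
    simp only [hJ]
    rw [integral_add, integral_add, integral_add, integral_const_mul, integral_const_mul,
      integral_const_mul, integral_const_mul, hdiv, hder.deriv, mul_zero, add_zero]
    · rfl
    · exact (intS k1).const_mul _
    · exact (intS (contS cQ ht)).const_mul _
    · exact ((intS k1).const_mul _).add ((intS (contS cQ ht)).const_mul _)
    · exact (intS (contS cP ht)).const_mul _
    · exact (((intS k1).const_mul _).add ((intS (contS cQ ht)).const_mul _)).add
        ((intS (contS cP ht)).const_mul _)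
    · exact (intS k4).const_mul _
  -- continuity of the radial momentum
  have kJ : Continuous fun w : S2 => ∑ j, J (rad f) h j (t • (w : E3)) * (t • (w : E3)) j := by
    simp only [hJ]
    exact (((k1.const_mul _).add ((contS cQ ht).const_mul _)).add ((contS cP ht).const_mul _)).add
      (k4.const_mul _)
  set Jr : S2 → ℝ := fun w => ∑ j, J (rad f) h j (t • (w : E3)) * (t • (w : E3)) j with hJr
  set W : ℝ := ww f t with hWdef
  set R : ℝ := t * f t ^ 2 with hR
  have hRp : 0 < R := by positivity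
  -- the pointwise inequality
  have star : ∀ w : S2, 2 * |Jr w| / R - sc ≤
      2 * hnn (rad f) h (t • (w : E3)) * trS (rad f) h (t • (w : E3))
        + trS (rad f) h (t • (w : E3)) ^ 2 / 2 := by
    intro w
    have hd := D.dec (t • (w : E3)) (tw_ne ht w)
    have hrad : rad f (t • (w : E3)) = f t := by rw [rad, tw_norm ht w]
    have h1 := cs (fun j => J (rad f) h j (t • (w : E3))) (t • (w : E3))
    rw [tw_norm ht w] at h1
    have h2 : |Jr w| / R ≤ normJ (rad f) h (t • (w : E3)) := by
      rw [normJ, hrad, div_le_div_iff₀ hRp (by positivity)]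
      have h3 := mul_le_mul_of_nonneg_right h1 (by positivity : 0 ≤ f t ^ 2)
      calc |Jr w| * f t ^ 2 ≤ Real.sqrt (∑ j, J (rad f) h j (t • (w : E3)) ^ 2) * t * f t ^ 2 := h3
        _ = Real.sqrt (∑ j, J (rad f) h j (t • (w : E3)) ^ 2) * R := by rw [hR]; ring
    have h4 := pw_le (h := h) hf (tw_ne ht w)
    have h5 : 2 * mu (rad f) h (t • (w : E3)) = sc - normSqG (rad f) h (t • (w : E3))
        + trG (rad f) h (t • (w : E3)) ^ 2 := by
      rw [mu, hscal _ (tw_norm ht w)]
      ring
    have h6 : 2 * |Jr w| / R = 2 * (|Jr w| / R) := by ring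
    rw [h6]
    linarith
  have hPne : ∀ x : E3, ‖x‖ = t → trS (rad f) h x ≠ 0 := by
    intro x hx h0
    obtain ⟨w, hw⟩ : ∃ w : S2, t • (w : E3) = x := by
      refine ⟨⟨t⁻¹ • x, ?_⟩, ?_⟩
      · rw [mem_sphere_zero_iff_norm, norm_smul, hx, Real.norm_eq_abs, abs_of_pos (by positivity)]
        field_simp
      · simp only
        rw [smul_smul, mul_inv_cancel₀ ht.ne', one_smul]
    have h1 := star w
    rw [hw, h0] at h1
    have h2 : 0 ≤ 2 * |Jr w| / R := by positivity
    simp at h1
    linarith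
  -- a sign
  obtain ⟨ε, hε2, hεP⟩ : ∃ ε : ℝ, ε ^ 2 = 1 ∧ ∀ w : S2, 0 < ε * trS (rad f) h (t • (w : E3)) := by
    rcases const_sign cP ht hPne with h1 | h1
    · exact ⟨1, by norm_num, fun w => by rw [one_mul]; exact h1 w⟩
    · exact ⟨-1, by norm_num, fun w => by have := h1 w; linarith⟩
  set p : ℝ := mean (trS (rad f) h) t with hp
  set qb : ℝ := mean (hnn (rad f) h) t with hqb
  set a : ℝ := ε * p with ha
  have hap : 0 < a := by
    rw [ha, hp, mean_eq, ← integral_const_mul]
    have hc : Continuous fun w : S2 => ε * trS (rad f) h (t • (w : E3)) := (contS cP ht).const_mul ε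
    rw [integral_pos_iff_support_of_nonneg (fun w => (hεP w).le) (intS hc)]
    have : Function.support (fun w : S2 => ε * trS (rad f) h (t • (w : E3))) = Set.univ := by
      ext w
      simp only [Function.mem_support, Set.mem_univ, iff_true]
      exact (hεP w).ne'
    rw [this, measure_univ]
    norm_num
  -- the linear lower bound for the normal component
  have low : ∀ w : S2, (-sc) * (2 / a - (ε * trS (rad f) h (t • (w : E3))) / a ^ 2)
      + |Jr w| / W - (ε * trS (rad f) h (t • (w : E3))) / 2 ≤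
        2 * (ε * hnn (rad f) h (t • (w : E3))) := by
    intro w
    set Pw : ℝ := ε * trS (rad f) h (t • (w : E3)) with hPw
    have hPwp : 0 < Pw := hεP w
    have habs : |trS (rad f) h (t • (w : E3))| = Pw := by
      have h1 : |ε| = 1 := by
        have : |ε| ^ 2 = 1 := by rw [sq_abs]; exact hε2
        nlinarith [abs_nonneg ε]
      calc |trS (rad f) h (t • (w : E3))| = |ε| * |trS (rad f) h (t • (w : E3))| := by
            rw [h1, one_mul]
        _ = |Pw| := by rw [hPw, abs_mul]
        _ = Pw := abs_of_pos hPwp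
    have hu := hunt _ (tw_norm ht w)
    rw [habs] at hu
    have hu' : R * Pw ≤ 2 * W := hu
    have hst := star w
    -- multiply by the sign
    have e1 : 2 * hnn (rad f) h (t • (w : E3)) * trS (rad f) h (t • (w : E3)) =
        2 * (ε * hnn (rad f) h (t • (w : E3))) * Pw := by
      rw [hPw]
      linear_combination (-2) * hnn (rad f) h (t • (w : E3)) * trS (rad f) h (t • (w : E3)) * hε2
    have e2 : trS (rad f) h (t • (w : E3)) ^ 2 = Pw ^ 2 := by
      rw [hPw]
      linear_combination (-1) * trS (rad f) h (t • (w : E3)) ^ 2 * hε2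
    rw [e1, e2] at hst
    -- tangent line
    have t1 : Pw * (2 / a - Pw / a ^ 2) ≤ 1 := by
      have : 1 - Pw * (2 / a - Pw / a ^ 2) = (1 - Pw / a) ^ 2 := by
        field_simp
        ring
      nlinarith [sq_nonneg (1 - Pw / a)]
    have t2 : Pw * (|Jr w| / W) ≤ 2 * |Jr w| / R := by
      rw [mul_div_assoc', div_le_div_iff₀ hW hRp]
      nlinarith [mul_le_mul_of_nonneg_left hu' (abs_nonneg (Jr w))]
    have t3 : Pw * ((-sc) * (2 / a - Pw / a ^ 2) + |Jr w| / W - Pw / 2) ≤
        Pw * (2 * (ε * hnn (rad f) h (t • (w : E3)))) := by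
      have t4 : (-sc) * (Pw * (2 / a - Pw / a ^ 2)) ≤ (-sc) * 1 :=
        mul_le_mul_of_nonneg_left t1 (by linarith)
      nlinarith
    exact le_of_mul_le_mul_left t3 hPwp
  have kA : Continuous fun w : S2 => |Jr w| := kJ.abs
  set jb : ℝ := ∫ w : S2, |Jr w| ∂nu with hjb
  have hjJ : |∫ w : S2, Jr w ∂nu| ≤ jb := abs_integral_le_integral_abs
  have hlow : (-sc) * (2 / a - a / a ^ 2) + jb / W - a / 2 ≤ 2 * (ε * qb) := by
    have i1 : ∫ w : S2, ((-sc) * (2 / a - (ε * trS (rad f) h (t • (w : E3))) / a ^ 2)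
        + |Jr w| / W - (ε * trS (rad f) h (t • (w : E3))) / 2) ∂nu ≤
          ∫ w : S2, 2 * (ε * hnn (rad f) h (t • (w : E3))) ∂nu := by
      refine integral_mono (intS ?_) (intS ?_) low
      · exact (((continuous_const.sub (((contS cP ht).const_mul ε).div_const _)).const_mul _).add
          (kA.div_const _)).sub (((contS cP ht).const_mul ε).div_const _)
      · exact ((contS cQ ht).const_mul ε).const_mul 2
    have i2 : ∫ w : S2, 2 * (ε * hnn (rad f) h (t • (w : E3))) ∂nu = 2 * (ε * qb) := by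
      rw [integral_const_mul, integral_const_mul]
      rfl
    have i3 : (fun w : S2 => (-sc) * (2 / a - (ε * trS (rad f) h (t • (w : E3))) / a ^ 2)
        + |Jr w| / W - (ε * trS (rad f) h (t • (w : E3))) / 2) =
        fun w : S2 => ((-sc) * (2 / a)) + ((sc * ε / a ^ 2 - ε / 2) * trS (rad f) h (t • (w : E3))
          + (1 / W) * |Jr w|) := by
      funext w
      ring
    have i4 : ∫ w : S2, ((-sc) * (2 / a - (ε * trS (rad f) h (t • (w : E3))) / a ^ 2)
        + |Jr w| / W - (ε * trS (rad f) h (t • (w : E3))) / 2) ∂nu =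
          ((-sc) * (2 / a)) + ((sc * ε / a ^ 2 - ε / 2) * p + (1 / W) * jb) := by
      have j1 : Integrable (fun w : S2 => (sc * ε / a ^ 2 - ε / 2) * trS (rad f) h (t • (w : E3))) nu :=
        intS ((contS cP ht).const_mul _)
      have j2 : Integrable (fun w : S2 => (1 / W) * |Jr w|) nu := intS (kA.const_mul _)
      have j3 : Integrable (fun w : S2 => (sc * ε / a ^ 2 - ε / 2) * trS (rad f) h (t • (w : E3))
          + (1 / W) * |Jr w|) nu := j1.add j2
      have j4 : ∫ w : S2, (sc * ε / a ^ 2 - ε / 2) * trS (rad f) h (t • (w : E3)) ∂nu =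
          (sc * ε / a ^ 2 - ε / 2) * p := integral_const_mul _ _
      have j5 : ∫ w : S2, (1 / W) * |Jr w| ∂nu = (1 / W) * jb := integral_const_mul _ _
      rw [i3, integral_add (integrable_const _) j3, integral_add j1 j2, j4, j5, integral_const]
      simp only [probReal_univ, one_smul]
    rw [i2, i4] at i1
    have i5 : (-sc) * (2 / a - a / a ^ 2) + jb / W - a / 2 =
        ((-sc) * (2 / a)) + ((sc * ε / a ^ 2 - ε / 2) * p + (1 / W) * jb) := by
      rw [ha]
      ring
    rw [i5]
    exact i1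
  have hlow2 : (-sc) + a * (jb / W) ≤ 2 * (a * (ε * qb)) + a ^ 2 / 2 := by
    have e1 : 2 / a - a / a ^ 2 = 1 / a := by
      field_simp
      ring
    rw [e1] at hlow
    have e2 := mul_le_mul_of_nonneg_left hlow hap.le
    have e3 : a * (-sc * (1 / a) + jb / W - a / 2) = (-sc) + a * (jb / W) - a ^ 2 / 2 := by
      field_simp
    rw [e3] at e2
    linarith
  have hpa : p ^ 2 = a ^ 2 := by
    rw [ha]
    linear_combination (-1) * p ^ 2 * hε2
  have hqa : a * (ε * qb) = p * qb := by
    rw [ha]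
    linear_combination p * qb * hε2
  have hpne : p ≠ 0 := by
    intro h0
    rw [ha, h0, mul_zero] at hap
    exact lt_irrefl _ hap
  refine ⟨(-sc - p ^ 2 / 2) / (2 * p), 0, 0, by simp, ?_, ?_⟩
  · have e1 : 2 * ((-sc - p ^ 2 / 2) / (2 * p)) * p = -sc - p ^ 2 / 2 := by
      field_simp
    rw [e1]
    linarith
  · rw [mul_zero, sub_zero]
    set dp : ℝ := deriv (mean (trS (rad f) h)) t with hdp
    have hWt : 1 / t + 2 * deriv f t / f t = W / t := by
      rw [hWdef, ww]
      field_simp
    rw [hWt]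
    have e1 : p * (dp - (2 * ((-sc - p ^ 2 / 2) / (2 * p)) - p) * (W / t)) =
        (W * (2 * (p * qb) + p ^ 2 / 2 - (-sc)) - p * ∫ w : S2, Jr w ∂nu) / t := by
      rw [hJint]
      field_simp
      ring
    rw [e1]
    refine div_nonneg ?_ ht.le
    have e2 : p * ∫ w : S2, Jr w ∂nu ≤ a * jb := by
      have h1 : |p| = a := by
        have h2 : |p| ^ 2 = a ^ 2 := by rw [sq_abs]; exact hpa
        exact (sq_eq_sq₀ (abs_nonneg _) hap.le).1 h2
      calc p * ∫ w : S2, Jr w ∂nu ≤ |p * ∫ w : S2, Jr w ∂nu| := le_abs_self _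
        _ = a * |∫ w : S2, Jr w ∂nu| := by rw [abs_mul, h1]
        _ ≤ a * jb := mul_le_mul_of_nonneg_left hjJ hap.le
    have e3 : a * jb ≤ W * (2 * (p * qb) + p ^ 2 / 2 - (-sc)) := by
      have h1 := mul_le_mul_of_nonneg_left hlow2 hW.le
      rw [hqa] at h1
      have h2 : W * (-sc + a * (jb / W)) = W * (-sc) + a * jb := by
        field_simp
      rw [h2] at h1
      rw [hpa]
      linarith
    linarith

/-- the theorem -/
theorem main2 {f : ℝ → ℝ} {h : Fin 3 → Fin 3 → E3 → ℝ} {m : ℝ} (D : IsData f h m)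
    (hinner : Tendsto (fun t => t * f t ^ 2) (𝓝[>] 0) atTop)
    (hfl : ∀ t : ℝ, 0 < t → 0 < ww f t → Fluct (rad f) h t ∨ NegUntrapped f h t) :
    ∃ t1 : ℝ, 0 < t1 ∧ 2 * ww f t1 ≤ t1 * f t1 ^ 2 * |mean (trS (rad f) h) t1| ∧
      (∀ t, t1 < t → t * f t ^ 2 * |mean (trS (rad f) h) t| < 2 * ww f t) ∧
      t1 * f t1 ^ 2 / 2 ≤ m := by
  have hf := D.smoothRad
  have hh := D.smoothTen
  have hp : ∀ t : ℝ, 0 < t → DifferentiableAt ℝ (mean (trS (rad f) h)) t := fun t ht =>
    (mean_deriv (fun x hx => cd_trS hf hh hx) ht).differentiableAt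
  obtain ⟨K, T, hK, hT, hb⟩ := D.bound
  have hcube : Tendsto (fun t => t ^ 3 * mean (trS (rad f) h) t ^ 2) atTop (𝓝 0) := by
    refine tendsto_cube hK hT fun t ht => ?_
    have ht0 : 0 < t := by linarith
    rw [mean_eq]
    refine (abs_integral_le_integral_abs).trans ?_
    have h1 : ∫ w : S2, |trS (rad f) h (t • (w : E3))| ∂nu ≤ ∫ _w : S2, K / t ^ 2 ∂nu := by
      refine integral_mono_of_nonneg (Eventually.of_forall fun w => abs_nonneg _)
        (integrable_const _) (Eventually.of_forall fun w => ?_)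
      have h2 := hb (t • (w : E3)) (by rw [tw_norm ht0 w]; exact ht)
      rw [tw_norm ht0 w] at h2
      exact h2
    refine h1.trans (le_of_eq ?_)
    simp
  have hmass := D.mass' adm_pf
  obtain ⟨t1, ht1, htr, haft⟩ := last_radius hf hp hinner D.tendsto_one hmass hcube
  refine ⟨t1, ht1, htr, haft, ?_⟩
  refine odes_pf f (mean (trS (rad f) h)) m t1 hf ht1 hp ?_ D.tendsto_one hmass hcube htr haft
  intro t ht
  have ht0 : 0 < t := ht1.trans ht
  have hF := (hf t ht0).1
  have h3 : 0 ≤ t * f t ^ 2 * |mean (trS (rad f) h) t| := by positivity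
  have hW : 0 < ww f t := by linarith [haft t ht]
  rcases hfl t ht0 hW with h4 | h4
  · exact averaged D ht0 h4
  · exact averaged_neg D ht0 hW h4

end Pool.Agent.N774.PIA
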