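import Pool.Agent.N795.PI.Main
import Pool.Agent.N655.PIJnu

/-!
# Averages over the spheres centred at the origin (helper774)
-/

set_option autoImplicit false

namespace Pool.Agent.N774.PIA

open Pool.Agent.N795.PI Filter Topology MeasureTheory
open scoped Pointwise

/-- the unit sphere -/
abbrev S2 : Type := Metric.sphere (0 : E3) 1

/-- normalised surface measure -/
noncomputable def nu : Measure S2 :=
  ((volume : Measure E3).toSphere Set.univ)⁻¹ • (volume : Measure E3).toSphere

/-- mean value over the sphere of radius `t` -/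
noncomputable def mean (F : E3 → ℝ) (t : ℝ) : ℝ :=
  ⨍ w : Metric.sphere (0 : E3) 1, F (t • (w : E3)) ∂(volume : Measure E3).toSphere

theorem mean_eq (F : E3 → ℝ) (t : ℝ) : mean F t = ∫ w : S2, F (t • (w : E3)) ∂nu := rfl

instance : IsProbabilityMeasure nu := by
  refine ⟨?_⟩
  have h0 : (volume : Measure E3).toSphere Set.univ ≠ 0 := by
    rw [Ne, Measure.measure_univ_eq_zero]
    exact Measure.toSphere_ne_zero _
  unfold nu
  rw [Measure.smul_apply, smul_eq_mul]
  exact ENNReal.inv_mul_cancel h0 (measure_ne_top _ _)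

/-- the action of an isometry on the sphere -/
noncomputable def act (A : E3 ≃ₗᵢ[ℝ] E3) (w : S2) : S2 := ⟨A w, by simp⟩

theorem act_cont (A : E3 ≃ₗᵢ[ℝ] E3) : Continuous (act A) :=
  Continuous.subtype_mk (A.continuous.comp continuous_subtype_val) _

theorem act_pres (A : E3 ≃ₗᵢ[ℝ] E3) : Measure.map (act A) nu = nu := by
  have h1 : Measure.map (act A) (volume : Measure E3).toSphere = (volume : Measure E3).toSphere := by
    refine Measure.ext fun s hs => ?_
    have hms : MeasurableSet (act A ⁻¹' s) := (act_cont A).measurable hs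
    rw [Measure.map_apply (act_cont A).measurable hs, Measure.toSphere_apply' _ hms,
      Measure.toSphere_apply' _ hs]
    congr 1
    have h2 : (Set.Ioo (0 : ℝ) 1 • ((Subtype.val : S2 → E3) '' (act A ⁻¹' s))) =
        A.toMeasurableEquiv ⁻¹' (Set.Ioo (0 : ℝ) 1 • ((Subtype.val : S2 → E3) '' s)) := by
      ext x
      simp only [Set.mem_smul, Set.mem_image, Set.mem_preimage]
      constructor
      · rintro ⟨r, hr, _, ⟨w, hw, rfl⟩, rfl⟩
        refine ⟨r, hr, _, ⟨act A w, hw, rfl⟩, ?_⟩
        simp [act]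
      · rintro ⟨r, hr, _, ⟨w, hw, rfl⟩, h⟩
        refine ⟨r, hr, _, ⟨act A.symm w, ?_, rfl⟩, ?_⟩
        · have : act A (act A.symm w) = w := by
            apply Subtype.ext
            simp [act]
          rw [this]
          exact hw
        · apply A.injective
          simp only [act, map_smul, LinearIsometryEquiv.apply_symm_apply]
          simpa using h
    rw [h2]
    exact MeasurePreserving.measure_preimage_equiv A.measurePreserving _
  unfold nu
  rw [Measure.map_smul, h1]

theorem int_act (A : E3 ≃ₗᵢ[ℝ] E3) (G : S2 → ℝ) (hG : Continuous G) :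
    ∫ w, G (act A w) ∂nu = ∫ w, G w ∂nu := by
  conv_rhs => rw [← act_pres A]
  rw [integral_map (act_cont A).aemeasurable hG.aestronglyMeasurable]

/-- differentiation under the integral sign -/
theorem deriv_int {F : E3 → ℝ} (hF : ∀ x : E3, x ≠ 0 → ContDiffAt ℝ 1 F x)
    (B B' : ℝ → E3 →L[ℝ] E3) (s₀ δ : ℝ) (hδ : 0 < δ)
    (hBd : ∀ s ∈ Metric.ball s₀ δ, HasDerivAt B (B' s) s)
    (hBc : ContinuousOn B (Metric.closedBall s₀ δ)) (hB'c : ContinuousOn B' (Metric.closedBall s₀ δ))
    (hne : ∀ s ∈ Metric.closedBall s₀ δ, ∀ w : S2, B s w ≠ 0) :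
    HasDerivAt (fun s => ∫ w : S2, F (B s w) ∂nu) (∫ w : S2, fderiv ℝ F (B s₀ w) (B' s₀ w) ∂nu) s₀ := by
  have hFc : ∀ x : E3, x ≠ 0 → ContinuousAt F x := fun x hx => (hF x hx).continuousAt
  have hdF : ∀ x : E3, x ≠ 0 → ContinuousAt (fderiv ℝ F) x := fun x hx =>
    ((hF x hx).fderiv_right (m := 0) (by norm_num)).continuousAt
  have hs₀ : s₀ ∈ Metric.closedBall s₀ δ := Metric.mem_closedBall_self hδ.le
  have hBw : ∀ s : ℝ, Continuous fun w : S2 => B s w := fun s =>
    (B s).continuous.comp continuous_subtype_val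
  have hcF : ∀ s ∈ Metric.closedBall s₀ δ, Continuous fun w : S2 => F (B s w) := by
    intro s hs
    rw [continuous_iff_continuousAt]
    intro w
    exact ContinuousAt.comp (hFc _ (hne s hs w)) (hBw s).continuousAt
  -- joint continuity
  have hjB : ContinuousOn (fun z : ℝ × S2 => B z.1 (z.2 : E3)) (Metric.closedBall s₀ δ ×ˢ Set.univ) := by
    refine ContinuousOn.clm_apply ?_ ?_
    · exact hBc.comp continuousOn_fst fun z hz => hz.1
    · exact (continuous_subtype_val.comp continuous_snd).continuousOn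
  have hjB' : ContinuousOn (fun z : ℝ × S2 => B' z.1 (z.2 : E3)) (Metric.closedBall s₀ δ ×ˢ Set.univ) := by
    refine ContinuousOn.clm_apply ?_ ?_
    · exact hB'c.comp continuousOn_fst fun z hz => hz.1
    · exact (continuous_subtype_val.comp continuous_snd).continuousOn
  have hj : ContinuousOn (fun z : ℝ × S2 => fderiv ℝ F (B z.1 (z.2 : E3)) (B' z.1 (z.2 : E3)))
      (Metric.closedBall s₀ δ ×ˢ Set.univ) := by
    refine ContinuousOn.clm_apply ?_ hjB'
    intro z hz
    exact ContinuousAt.comp_continuousWithinAt (hdF _ (hne z.1 hz.1 z.2)) (hjB z hz)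
  obtain ⟨C, hC⟩ := ((isCompact_closedBall s₀ δ).prod (isCompact_univ (X := S2))).exists_bound_of_continuousOn hj
  have hcont' : Continuous fun w : S2 => fderiv ℝ F (B s₀ w) (B' s₀ w) := by
    rw [← continuousOn_univ]
    exact hj.comp (f := fun w : S2 => (s₀, w)) (by fun_prop) (fun w _ => ⟨hs₀, trivial⟩)
  refine (hasDerivAt_integral_of_dominated_loc_of_deriv_le (μ := nu)
    (F := fun s w => F (B s (w : E3))) (F' := fun s w => fderiv ℝ F (B s (w : E3)) (B' s (w : E3)))
    (bound := fun _ => C) (Metric.ball_mem_nhds s₀ hδ) ?_ ?_ ?_ ?_ (integrable_const C) ?_).2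
  · filter_upwards [Metric.closedBall_mem_nhds s₀ hδ] with s hs
    exact (hcF s hs).aestronglyMeasurable
  · exact (hcF s₀ hs₀).integrable_of_hasCompactSupport (HasCompactSupport.of_compactSpace _)
  · exact hcont'.aestronglyMeasurable
  · refine Eventually.of_forall fun w s hs => ?_
    exact hC (s, w) ⟨Metric.ball_subset_closedBall hs, trivial⟩
  · refine Eventually.of_forall fun w s hs => ?_
    have h1 : HasFDerivAt F (fderiv ℝ F (B s w)) (B s w) :=
      ((hF _ (hne s (Metric.ball_subset_closedBall hs) w)).differentiableAt (by norm_num)).hasFDerivAt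
    have h2 : HasDerivAt (fun s => B s (w : E3)) (B' s (w : E3)) s := by
      have h3 := (hBd s hs).clm_apply (hasDerivAt_const s (w : E3))
      simpa using h3
    exact h1.comp_hasDerivAt s h2

/-- the mean value over the sphere as a function of the radius -/
theorem mean_deriv {F : E3 → ℝ} (hF : ∀ x : E3, x ≠ 0 → ContDiffAt ℝ 1 F x) {t : ℝ} (ht : 0 < t) :
    HasDerivAt (mean F) (∫ w : S2, fderiv ℝ F (t • (w : E3)) (w : E3) ∂nu) t := by
  have h := deriv_int hF (fun s => s • ContinuousLinearMap.id ℝ E3) (fun _ => ContinuousLinearMap.id ℝ E3)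
    t (t / 2) (by positivity) (fun s _ => ?_) ?_ ?_ ?_
  · exact h
  · have := (hasDerivAt_id s).smul_const (ContinuousLinearMap.id ℝ E3)
    simpa using this
  · fun_prop
  · fun_prop
  · intro s hs w
    rw [Metric.mem_closedBall, Real.dist_eq, abs_le] at hs
    have hs0 : s ≠ 0 := by
      intro h0
      rw [h0] at hs
      linarith [hs.1]
    have hw : (w : E3) ≠ 0 := by
      intro h0
      have := mem_sphere_zero_iff_norm.1 w.2
      rw [h0, norm_zero] at this
      exact zero_ne_one this
    simpa using And.intro hs0 hw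

/-- the projection to the plane of the coordinates `i`, `j` -/
noncomputable def Pm (i j : Fin 3) : E3 →L[ℝ] E3 :=
  (EuclideanSpace.proj i : E3 →L[ℝ] ℝ).smulRight (EuclideanSpace.single i (1 : ℝ)) +
    (EuclideanSpace.proj j : E3 →L[ℝ] ℝ).smulRight (EuclideanSpace.single j (1 : ℝ))

/-- the generator of the rotations in the plane of the coordinates `i`, `j` -/
noncomputable def Km (i j : Fin 3) : E3 →L[ℝ] E3 :=
  (EuclideanSpace.proj i : E3 →L[ℝ] ℝ).smulRight (EuclideanSpace.single j (1 : ℝ)) -
    (EuclideanSpace.proj j : E3 →L[ℝ] ℝ).smulRight (EuclideanSpace.single i (1 : ℝ))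

theorem Km_apply (i j : Fin 3) (x : E3) :
    Km i j x = x i • EuclideanSpace.single j (1 : ℝ) - x j • EuclideanSpace.single i (1 : ℝ) := by
  simp [Km]

/-- the rotations -/
noncomputable def Rm (i j : Fin 3) (s : ℝ) : E3 →L[ℝ] E3 :=
  ContinuousLinearMap.id ℝ E3 + (Real.cos s - 1) • Pm i j + Real.sin s • Km i j

theorem Rm_norm {i j : Fin 3} (hij : i ≠ j) (s : ℝ) (x : E3) : ‖Rm i j s x‖ = ‖x‖ := by
  rw [← sq_eq_sq₀ (norm_nonneg _) (norm_nonneg _), EuclideanSpace.norm_sq_eq, EuclideanSpace.norm_sq_eq]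
  simp only [Real.norm_eq_abs, sq_abs, Rm, Pm, Km, add_apply,
    smul_apply, sub_apply, ContinuousLinearMap.smulRight_apply,
    ContinuousLinearMap.id_apply, PiLp.add_apply, PiLp.smul_apply, PiLp.sub_apply, PiLp.proj_apply,
    smul_eq_mul]
  have hcs := Real.sin_sq_add_cos_sq s
  set c := Real.cos s
  set d := Real.sin s
  rw [Fin.sum_univ_three, Fin.sum_univ_three]
  fin_cases i <;> fin_cases j <;> first
    | exact absurd rfl hij
    | (simp [PiLp.single_apply]
       linear_combination (x 0 ^ 2 + x 1 ^ 2) * hcs)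
    | (simp [PiLp.single_apply]
       linear_combination (x 0 ^ 2 + x 2 ^ 2) * hcs)
    | (simp [PiLp.single_apply]
       linear_combination (x 1 ^ 2 + x 2 ^ 2) * hcs)

/-- the rotations as isometries -/
noncomputable def Ri {i j : Fin 3} (hij : i ≠ j) (s : ℝ) : E3 ≃ₗᵢ[ℝ] E3 :=
  LinearIsometry.toLinearIsometryEquiv
    { toLinearMap := (Rm i j s).toLinearMap
      norm_map' := Rm_norm hij s } rfl

theorem Ri_apply {i j : Fin 3} (hij : i ≠ j) (s : ℝ) (x : E3) : Ri hij s x = Rm i j s x := rfl

/-- derivatives along rotations have mean value zero -/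
theorem rot_zero {F : E3 → ℝ} (hF : ∀ x : E3, x ≠ 0 → ContDiffAt ℝ 1 F x) {t : ℝ} (ht : 0 < t)
    (i j : Fin 3) : ∫ w : S2, fderiv ℝ F (t • (w : E3)) (Km i j (t • (w : E3))) ∂nu = 0 := by
  by_cases hij : i = j
  · subst hij
    have : ∀ x : E3, Km i i x = 0 := by
      intro x
      rw [Km_apply, sub_self]
    simp [this]
  have hwne : ∀ w : S2, (w : E3) ≠ 0 := by
    intro w h0
    have := mem_sphere_zero_iff_norm.1 w.2
    rw [h0, norm_zero] at this
    exact zero_ne_one this
  have h := deriv_int hF (fun s => t • Rm i j s)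
    (fun s => t • ((-Real.sin s) • Pm i j + Real.cos s • Km i j))
    0 1 one_pos (fun s _ => ?_) ?_ ?_ ?_
  · have hconst : (fun s => ∫ w : S2, F ((t • Rm i j s) (w : E3)) ∂nu) =
        fun _ => ∫ w : S2, F (t • (w : E3)) ∂nu := by
      funext s
      have hG : Continuous fun w : S2 => F (t • (w : E3)) := by
        rw [continuous_iff_continuousAt]
        intro w
        have hcs : Continuous fun w : S2 => t • (w : E3) := continuous_subtype_val.const_smul t
        exact ContinuousAt.comp (g := F) (hF _ (smul_ne_zero ht.ne' (hwne w))).continuousAt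
          hcs.continuousAt
      rw [← int_act (Ri hij s) _ hG]
      rfl
    rw [hconst] at h
    have h2 := h.unique (hasDerivAt_const (0 : ℝ) _)
    rw [← h2]
    refine integral_congr_ae (Eventually.of_forall fun w => ?_)
    simp [Rm]
  · have h1 : HasDerivAt (fun s : ℝ => Rm i j s)
        ((-Real.sin s) • Pm i j + Real.cos s • Km i j) s := by
      unfold Rm
      have h2 : HasDerivAt (fun s : ℝ => (Real.cos s - 1) • Pm i j) ((-Real.sin s) • Pm i j) s := by
        have := ((Real.hasDerivAt_cos s).sub_const 1).smul_const (Pm i j)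
        exact this
      have h3 : HasDerivAt (fun s : ℝ => Real.sin s • Km i j) (Real.cos s • Km i j) s :=
        (Real.hasDerivAt_sin s).smul_const (Km i j)
      exact ((h2.const_add _).add h3)
    exact h1.const_smul t
  · unfold Rm
    fun_prop
  · fun_prop
  · intro s _ w h0
    have h1 : ‖(t • Rm i j s) (w : E3)‖ = t := by
      rw [ContinuousLinearMap.smul_apply, norm_smul, Rm_norm hij, mem_sphere_zero_iff_norm.1 w.2,
        Real.norm_eq_abs, abs_of_pos ht, mul_one]
    rw [h0, norm_zero] at h1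
    exact ht.ne h1

/-- the divergence of a tangential field has mean value zero -/
theorem mean_div {V : Fin 3 → E3 → ℝ} (hV : ∀ i, ∀ x : E3, x ≠ 0 → ContDiffAt ℝ 1 (V i) x)
    (hVx : ∀ x : E3, x ≠ 0 → ∑ i, V i x * x i = 0) {t : ℝ} (ht : 0 < t) :
    ∫ w : S2, (∑ i, pd i (V i) (t • (w : E3))) ∂nu = 0 := by
  have hco : ∀ i : Fin 3, ContDiff ℝ 1 (fun y : E3 => y i) := fun i =>
    (EuclideanSpace.proj i : E3 →L[ℝ] ℝ).contDiff
  have hG : ∀ i j : Fin 3, ∀ x : E3, x ≠ 0 → ContDiffAt ℝ 1 (fun y : E3 => y i * V j y - y j * V i y) x :=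
    fun i j x hx => ((hco i).contDiffAt.mul (hV j x hx)).sub ((hco j).contDiffAt.mul (hV i x hx))
  have hwne : ∀ w : S2, t • (w : E3) ≠ 0 := by
    intro w h0
    have := mem_sphere_zero_iff_norm.1 w.2
    rw [smul_eq_zero] at h0
    rcases h0 with h0 | h0
    · exact ht.ne' h0
    · rw [h0, norm_zero] at this
      exact zero_ne_one this
  have hnorm : ∀ w : S2, ‖t • (w : E3)‖ = t := by
    intro w
    rw [norm_smul, mem_sphere_zero_iff_norm.1 w.2, Real.norm_eq_abs, abs_of_pos ht, mul_one]
  have hcont : ∀ i j : Fin 3, Continuous fun w : S2 =>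
      fderiv ℝ (fun y : E3 => y i * V j y - y j * V i y) (t • (w : E3)) (Km i j (t • (w : E3))) := by
    intro i j
    have hcs : Continuous fun w : S2 => t • (w : E3) := continuous_subtype_val.const_smul t
    refine Continuous.clm_apply ?_ ?_
    · rw [continuous_iff_continuousAt]
      intro w
      exact ContinuousAt.comp (g := fderiv ℝ (fun y : E3 => y i * V j y - y j * V i y))
        ((hG i j _ (hwne w)).fderiv_right (m := 0) (by norm_num)).continuousAt hcs.continuousAt
    · exact (Km i j).continuous.comp hcs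
  have hpt : ∀ x : E3, x ≠ 0 → ∑ i, pd i (V i) x = (1 / (2 * ‖x‖ ^ 2)) *
      ∑ i, ∑ j, fderiv ℝ (fun y : E3 => y i * V j y - y j * V i y) x (Km i j x) := by
    intro x hx
    have hn : ‖x‖ ^ 2 = x 0 ^ 2 + x 1 ^ 2 + x 2 ^ 2 := by
      rw [EuclideanSpace.norm_sq_eq, Fin.sum_univ_three]
      simp [Real.norm_eq_abs, sq_abs]
    have hnp : 0 < ‖x‖ ^ 2 := by
      have := norm_pos_iff.2 hx
      positivity
    have hVd : ∀ i, DifferentiableAt ℝ (V i) x := fun i => (hV i x hx).differentiableAt (by norm_num)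
    have hcd : ∀ i : Fin 3, DifferentiableAt ℝ (fun y : E3 => y i) x := fun i =>
      (hco i).contDiffAt.differentiableAt (by norm_num)
    have hfd : ∀ (i : Fin 3) (v : E3), fderiv ℝ (fun y : E3 => y i) x v = v i := by
      intro i v
      have : fderiv ℝ (fun y : E3 => y i) x = (EuclideanSpace.proj i : E3 →L[ℝ] ℝ) :=
        (EuclideanSpace.proj i : E3 →L[ℝ] ℝ).fderiv
      rw [this]
      rfl
    have hfG : ∀ (i j : Fin 3) (v : E3), fderiv ℝ (fun y : E3 => y i * V j y - y j * V i y) x v =
        (x i * fderiv ℝ (V j) x v + V j x * v i) - (x j * fderiv ℝ (V i) x v + V i x * v j) := by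
      intro i j v
      have h1 := ((hcd i).mul (hVd j)).hasFDerivAt.sub ((hcd j).mul (hVd i)).hasFDerivAt
      have h2 : fderiv ℝ (fun y : E3 => y i * V j y - y j * V i y) x =
          fderiv ℝ ((fun y : E3 => y i) * V j) x - fderiv ℝ ((fun y : E3 => y j) * V i) x := h1.fderiv
      rw [h2, fderiv_mul (hcd i) (hVd j), fderiv_mul (hcd j) (hVd i)]
      simp only [ContinuousLinearMap.sub_apply, ContinuousLinearMap.add_apply,
        ContinuousLinearMap.smul_apply, smul_eq_mul, hfd]
    -- derivatives in the coordinate directions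
    have hlin : ∀ (i : Fin 3) (v : E3), fderiv ℝ (V i) x v =
        v 0 * pd 0 (V i) x + v 1 * pd 1 (V i) x + v 2 * pd 2 (V i) x := by
      intro i v
      have hv : v = v 0 • EuclideanSpace.single 0 (1 : ℝ) + v 1 • EuclideanSpace.single 1 (1 : ℝ)
          + v 2 • EuclideanSpace.single 2 (1 : ℝ) := by
        ext k
        fin_cases k <;> simp [PiLp.single_apply]
      conv_lhs => rw [hv]
      simp only [map_add, map_smul, smul_eq_mul, pd]
    have h0 := hVx x hx
    rw [Fin.sum_univ_three] at h0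
    -- derivative of the relation
    have h1 : x 0 * fderiv ℝ (V 0) x x + x 1 * fderiv ℝ (V 1) x x + x 2 * fderiv ℝ (V 2) x x = 0 := by
      have h2 : (fun y : E3 => V 0 y * y 0 + V 1 y * y 1 + V 2 y * y 2) =ᶠ[𝓝 x] fun _ => 0 := by
        filter_upwards [isOpen_ne.mem_nhds hx] with y hy
        have := hVx y hy
        rw [Fin.sum_univ_three] at this
        exact this
      have h3 := Filter.EventuallyEq.fderiv_eq (𝕜 := ℝ) h2
      have h4 : fderiv ℝ (fun y : E3 => V 0 y * y 0 + V 1 y * y 1 + V 2 y * y 2) x x =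
          (V 0 x * x 0 + x 0 * fderiv ℝ (V 0) x x) + (V 1 x * x 1 + x 1 * fderiv ℝ (V 1) x x)
            + (V 2 x * x 2 + x 2 * fderiv ℝ (V 2) x x) := by
        have d0 : DifferentiableAt ℝ (V 0 * fun y : E3 => y 0) x := (hVd 0).mul (hcd 0)
        have d1 : DifferentiableAt ℝ (V 1 * fun y : E3 => y 1) x := (hVd 1).mul (hcd 1)
        have d2 : DifferentiableAt ℝ (V 2 * fun y : E3 => y 2) x := (hVd 2).mul (hcd 2)
        have h6 : fderiv ℝ (fun y : E3 => V 0 y * y 0 + V 1 y * y 1 + V 2 y * y 2) x =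
            fderiv ℝ (V 0 * fun y : E3 => y 0) x + fderiv ℝ (V 1 * fun y : E3 => y 1) x
              + fderiv ℝ (V 2 * fun y : E3 => y 2) x :=
          ((d0.hasFDerivAt.add d1.hasFDerivAt).add d2.hasFDerivAt).fderiv
        rw [h6, fderiv_mul (hVd 0) (hcd 0), fderiv_mul (hVd 1) (hcd 1), fderiv_mul (hVd 2) (hcd 2)]
        simp only [ContinuousLinearMap.add_apply, ContinuousLinearMap.smul_apply, smul_eq_mul, hfd]
      rw [h3] at h4
      simp at h4
      linarith
    simp only [hlin] at h1
    simp only [Fin.sum_univ_three, hfG, Km_apply, hlin]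
    simp [PiLp.single_apply]
    rw [hn] at hnp ⊢
    field_simp
    linear_combination 2 * h1 + 4 * h0
  have h1 : ∀ w : S2, ∑ i, pd i (V i) (t • (w : E3)) = (1 / (2 * t ^ 2)) *
      ∑ i, ∑ j, fderiv ℝ (fun y : E3 => y i * V j y - y j * V i y) (t • (w : E3))
        (Km i j (t • (w : E3))) := by
    intro w
    rw [hpt _ (hwne w), hnorm w]
  simp only [h1]
  rw [integral_const_mul, integral_finsetSum]
  · have h2 : ∀ i : Fin 3, ∫ w : S2, (∑ j, fderiv ℝ (fun y : E3 => y i * V j y - y j * V i y)
        (t • (w : E3)) (Km i j (t • (w : E3)))) ∂nu = 0 := by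
      intro i
      rw [integral_finsetSum]
      · exact Finset.sum_eq_zero fun j _ => rot_zero (hG i j) ht i j
      · intro j _
        exact (hcont i j).integrable_of_hasCompactSupport (HasCompactSupport.of_compactSpace _)
    rw [Finset.sum_eq_zero fun i _ => h2 i, mul_zero]
  · intro i _
    exact (continuous_finsetSum _ fun j _ => hcont i j).integrable_of_hasCompactSupport
      (HasCompactSupport.of_compactSpace _)

end Pool.Agent.N774.PIA
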